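import Mathlib
import Pool.Agent.R395.FT.Alg
import Pool.Agent.K1H84.DI.Crit
import Pool.Agent.K1H82.LQ.Main

/-!
# A partial algorithm and curves with arbitrary local conditions

One partial computable function `φ` on the polynomials `f(x, y)` with integer coefficients, which
answers correctly, whenever it is defined, whether `f(x, y) = 0` has infinitely many rational
solutions (the search of `FullTwoTorsion.lean`). Let `M ≥ 1`, let `a₀`, `b₀` be residue classes modulo
`M` and `V` an open cone in the plane. At least `X² / (log X) ^ C` of the pairs `(a, b)` of integers,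
`|a|, |b| ≤ X`, `(a, b) ∈ V`, `a ≡ a₀`, `b ≡ b₀` modulo `M`, are such that `φ` halts with the answer `false`
at the short Weierstrass equation `y² = x³ + A x + B` of `E : y² = x (x - a) (x - b)`, and such that for
every nonzero integer `d` there are `D₀` and an infinite set `S` of primes, with `|D₀| q ≤ (log X) ^ C` for
one `q ∈ S`, such that `φ` halts with the answer `false` for all the twists of `E` by `D₀ n`, `n` a
product of an odd number of different elements of `S`, where `D₀ n` and `d` are in the same square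
class at the real place and at the primes dividing `M`. So the curve may have any kind of (bad)
reduction at any finite number of primes, `2` included, and any behaviour at the real place. Nothing is
assumed on `Ш`.

The search and its correctness: `Pool/Agent/R395/FT/*.lean` (helper395). The curves and twists:
`Pool/Agent/K1H82/LQ/*.lean` (helper82). The criterion which connects them: `K1H84/DI/Crit.lean`.
-/

set_option autoImplicit false

namespace Pool.Agent.Results.MP_d6ddbd_nt.EveryLocalCondition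

/-- the set `Z_f(ℚ)` of the rational zeros of `f = ∑ L_(i,j) x^i y^j` -/
def Zeros (L : List (List ℤ)) : Set (ℚ × ℚ) := {p : ℚ × ℚ |
  ∑ i ∈ Finset.range L.length, ∑ j ∈ Finset.range (L.getD i []).length,
    (((L.getD i []).getD j 0 : ℤ) : ℚ) * p.1 ^ i * p.2 ^ j = 0}

/-- the polynomial `y² - x³ - A x - B` -/
def weier (A B : ℤ) : List (List ℤ) := [[-B, 0, 1], [-A], [], [-1]]

/-- `D` and `d` are in the same class in the multiplicative groups of `ℝ` and of `ℚ_p`, for all the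
primes `p` dividing `M`, modulo squares; so the completions of `ℚ(√D)` and `ℚ(√d)` at these places
are isomorphic -/
def SameAt (M : ℕ) (D d : ℤ) : Prop :=
  0 < D * d ∧ ∀ (p : ℕ) [Fact p.Prime], p ∣ M → IsSquare ((D * d : ℤ) : ℚ_[p])

/-- `S` is an infinite set of primes, and for all the products `n` of an odd number of different
elements of `S` the integer `D₀ n` is in the local class of `d` and satisfies `P`. -/
def Odds (M : ℕ) (P : ℤ → Prop) (D₀ d : ℤ) (S : Set ℕ) : Prop :=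
  S.Infinite ∧ (∀ s ∈ S, s.Prime) ∧ ∀ T : Finset ℕ, (T : Set ℕ) ⊆ S → Odd T.card →
    SameAt M (D₀ * (∏ s ∈ T, s : ℕ)) d ∧ P (D₀ * (∏ s ∈ T, s : ℕ))

/-- For every nonzero `d` there are an integer `D₀` and a prime `q` with `|D₀| q ≤ B` such that `q` is
an element of such a set `S`. -/
def SmallInEveryClass (M : ℕ) (B : ℝ) (P : ℤ → Prop) : Prop :=
  ∀ d : ℤ, d ≠ 0 → ∃ (D₀ : ℤ) (q : ℕ) (S : Set ℕ), (|D₀| : ℤ) * (q : ℝ) ≤ B ∧ q ∈ S ∧
    Odds M P D₀ d S

/-- `short a b = (A, B)`, where `y² = x³ + A x + B` is the short Weierstrass equation of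
`y² = x (x - a) (x - b)` (replace `x` by `(x + 3 (a + b)) / 9` and `y` by `y / 27`) -/
def short (a b : ℤ) : ℤ × ℤ :=
  (-27 * (a ^ 2 - a * b + b ^ 2), 27 * ((a + b) * (2 * a - b) * (2 * b - a)))

/-- The pairs `(a, b)` of integers with `|a|, |b| ≤ X` and with the local conditions `a ≡ a₀`,
`b ≡ b₀` modulo `M` and `(a, b) ∈ V` such that `E : y² = x (x - a) (x - b)` is an elliptic curve, `φ` has
the value `false` at its short equation `y² - x³ - A x - B`, and, in every local class, also at the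
equations `y² - x³ - A D² x - B D³` of small twists. -/
def Good (φ : List (List ℤ) →. Bool) (C M : ℕ) (a₀ b₀ : ℤ) (V : Set (ℝ × ℝ)) (X : ℕ) : Set (ℤ × ℤ) :=
  {t | |t.1| ≤ X ∧ |t.2| ≤ X ∧ t.1 ≡ a₀ [ZMOD M] ∧ t.2 ≡ b₀ [ZMOD M] ∧
    ((t.1 : ℝ), (t.2 : ℝ)) ∈ V ∧ t.1 ≠ 0 ∧ t.2 ≠ 0 ∧ t.1 ≠ t.2 ∧
    false ∈ φ (weier (short t.1 t.2).1 (short t.1 t.2).2) ∧
    SmallInEveryClass M ((Real.log X) ^ C)
      (fun D => false ∈ φ (weier (D ^ 2 * (short t.1 t.2).1) (D ^ 3 * (short t.1 t.2).2)))}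

lemma small_of {M : ℕ} {B : ℝ} {P : ℤ → Prop} (h : Pool.Agent.K1H82.LQ.Ws M B P) :
    SmallInEveryClass M B P := h

lemma zeros_eq {e : ℤ × ℤ × ℤ} (hs : e.1 + e.2.1 + e.2.2 = 0) :
    Zeros (Pool.Agent.R395.FT.wei e) = Pool.Agent.R395.FT.Pts e.1 e.2.1 e.2.2 := by
  obtain ⟨e1, e2, e3⟩ := e
  have hs' : (e1 : ℚ) + e2 + e3 = 0 := by
    have : e1 + e2 + e3 = 0 := hs
    exact_mod_cast this
  ext ⟨x, y⟩
  unfold Zeros Pool.Agent.R395.FT.wei Pool.Agent.R395.FT.weier Pool.Agent.R395.FT.Pts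
  simp only [Set.mem_ofPred_eq, List.length_cons, List.length_nil, Finset.sum_range_succ,
    Finset.sum_range_zero, List.getD_cons_zero, List.getD_cons_succ, List.getD_nil]
  push_cast
  constructor
  · intro h
    linear_combination h + x ^ 2 * hs'
  · intro h
    linear_combination h - x ^ 2 * hs'

lemma wei_of {A B e1 e2 e3 : ℤ} (hD : 4 * A ^ 3 + 27 * B ^ 2 ≠ 0)
    (hroot : ∀ x : ℤ, x ^ 3 + A * x + B = (x - e1) * (x - e2) * (x - e3)) :
    Pool.Agent.R395.FT.Dis (e1, e2, e3) ∧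
    weier A B = Pool.Agent.R395.FT.wei (e1, e2, e3) := by
  obtain ⟨hs, hA, hB⟩ := Pool.Agent.W402.FK.coef A B e1 e2 e3 hroot
  obtain ⟨h12, h13, h23⟩ := Pool.Agent.W402.FK.dist A B e1 e2 e3 hD hroot
  refine ⟨⟨⟨h12, h13, h23⟩, hs⟩, ?_⟩
  unfold weier Pool.Agent.R395.FT.wei Pool.Agent.R395.FT.weier
  rw [hA, hB]

lemma short_root (a b : ℤ) : ∀ x : ℤ, x ^ 3 + (short a b).1 * x + (short a b).2 =
    (x - -3 * (a + b)) * (x - (6 * a - 3 * b)) * (x - (6 * b - 3 * a)) := by
  intro x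
  unfold short
  ring

open Pool.Agent.W307.RT (Sh)

/-- from the curve to its short equation -/
lemma tv_short {a b : ℤ} (h : Pool.Agent.K1H97.WA.Tr (a : ℚ) (b : ℚ)) :
    Pool.Agent.K1H97.CU.Tv (Sh (short a b).1 (short a b).2) := by
  have ha : a ≠ 0 := by exact_mod_cast h.ha
  have hb : b ≠ 0 := by exact_mod_cast h.hb
  have hab : a ≠ b := by exact_mod_cast h.hab
  have hv : Pool.Agent.Y700.VR (Sh (short a b).1 (short a b).2) (Pool.Agent.K1H82.LQ.EK ℚ a b) 3
      (-(3 * ((a : ℚ) + b))) 0 0 := Pool.Agent.K1H82.LQ.vr_EK ℚ a b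
  have hD := Pool.Agent.K1H82.LQ.EK_disc ℚ ha hb hab
  refine ⟨?_, Pool.Agent.K1H97.WA.sha_vr hv hD h.sha⟩
  have := h.fin
  have h2 : Finite (Pool.Agent.K1H82.LQ.EK ℚ a b).toAffine.Point := h.fin
  exact Finite.of_equiv _ (hv.equiv hD).toEquiv

/-- **Theorem.** There is a partial computable function `φ` from the lists of lists of integers
(polynomials `f(x, y)`) to `{true, false}` such that
(1) if `φ(f)` is defined, then it is `true` if and only if `f` has infinitely many rational zeros;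
(2) there is a constant `C` such that for every `M ≥ 1`, all residue classes `a₀`, `b₀` modulo `M` and
every nonempty open cone `V` in the plane, for all large `X` at least `X² / (log X) ^ C` pairs `(a, b)` of
integers with `|a|, |b| ≤ X`, `a ≡ a₀`, `b ≡ b₀` modulo `M` and `(a, b) ∈ V` have the following property:
`φ` has the value `false` at the short equation of `E : y² = x (x - a) (x - b)`, and for each nonzero
integer `d` there are `D₀`, an infinite set `S` of primes and `q ∈ S` with `|D₀| q ≤ (log X) ^ C` such that,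
for all the products `n` of an odd number of different elements of `S`, `D₀ n` and `d` are in the same
square class at the real place and at the primes dividing `M`, and `φ` has the value `false` at the
equation of the twist of `E` by `D₀ n`. -/
theorem result :
    ∃ φ : List (List ℤ) →. Bool, Partrec φ ∧
    (∀ L, ∀ r ∈ φ L, (r = true ↔ (Zeros L).Infinite)) ∧
    ∃ C : ℕ, ∀ M : ℕ, 0 < M → ∀ (a₀ b₀ : ℤ) (V : Set (ℝ × ℝ)), IsOpen V → V.Nonempty →
      (∀ v ∈ V, ∀ u : ℝ, 0 < u → u • v ∈ V) → ∃ X₀ : ℕ, ∀ X : ℕ, X₀ ≤ X →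
        (X : ℝ) ^ 2 / (Real.log X) ^ C ≤ ((Good φ C M a₀ b₀ V X).ncard : ℝ) := by
  classical
  obtain ⟨φ, hφ, hdom, hval⟩ := Pool.Agent.R395.FT.exists_alg
  -- soundness
  have hinf : ∀ L, Pool.Agent.R395.FT.PInf L → (Zeros L).Infinite := by
    intro L h
    obtain ⟨e, h1, rfl, h2⟩ := Pool.Agent.R395.FT.pInf_sound h
    rw [zeros_eq h1.2]
    exact h2
  have hfin : ∀ L, Pool.Agent.R395.FT.PFin L → ¬ (Zeros L).Infinite := by
    intro L h
    obtain ⟨e, h1, rfl, h2, -⟩ := Pool.Agent.R395.FT.pFin_sound h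
    rw [zeros_eq h1.2, Set.not_infinite]
    exact h2
  have hsound : ∀ L, ∀ r ∈ φ L, (r = true ↔ (Zeros L).Infinite) := by
    intro L r hr
    rcases hval L r hr with ⟨rfl, h⟩ | ⟨rfl, h⟩
    · exact ⟨fun _ => hinf L h, fun _ => rfl⟩
    · exact ⟨fun h' => Bool.noConfusion h', fun h' => absurd h' (hfin L h)⟩
  have hfalse : ∀ L, Pool.Agent.R395.FT.PFin L → false ∈ φ L := by
    intro L h
    obtain ⟨r, hr⟩ := Part.dom_iff_mem.1 ((hdom L).2 (Or.inr h))
    rcases hval _ _ hr with ⟨-, h1⟩ | ⟨h1, -⟩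
    · exact absurd (hinf _ h1) (hfin _ h)
    · rw [h1] at hr
      exact hr
  -- the criterion
  have hcrit : ∀ {A B e1 e2 e3 : ℤ}, 4 * A ^ 3 + 27 * B ^ 2 ≠ 0 →
      (∀ x : ℤ, x ^ 3 + A * x + B = (x - e1) * (x - e2) * (x - e3)) →
      Pool.Agent.K1H97.CU.Tv (Sh A B) → false ∈ φ (weier A B) := by
    intro A B e1 e2 e3 hD hroot h
    obtain ⟨g1, g2⟩ := wei_of hD hroot
    obtain ⟨g3, g4⟩ := (Pool.Agent.K1H84.DI.small_iff hD hroot).2 h
    rw [g2]
    exact hfalse _ (Pool.Agent.R395.FT.pFin_complete g1 hroot g3 g4)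
  refine ⟨φ, hφ, hsound, Pool.Agent.K1H97.WA.CC, fun M hM a₀ b₀ V hV hne hcone => ?_⟩
  obtain ⟨⟨α, β⟩, hv⟩ := hne
  obtain ⟨δ, hδ, hball⟩ := Metric.isOpen_iff.1 hV _ hv
  obtain ⟨X₀, hX₀⟩ := Pool.Agent.K1H82.LQ.main_pairs M hM a₀ b₀ α β δ hδ
  refine ⟨X₀, fun X hX => (hX₀ X hX).trans ?_⟩
  have hfin : (Good φ Pool.Agent.K1H97.WA.CC M a₀ b₀ V X).Finite := by
    refine ((Set.finite_Icc (-(X : ℤ)) X).prod (Set.finite_Icc (-(X : ℤ)) X)).subset ?_
    intro t ht
    exact ⟨abs_le.1 ht.1, abs_le.1 ht.2.1⟩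
  have hsub : (((Pool.Agent.Y676.Bx X).filter (fun t => Pool.Agent.K1H97.WA.LC M a₀ b₀ α β δ t ∧
      Pool.Agent.K1H82.LQ.Pr M X t) : Finset (ℤ × ℤ)) : Set (ℤ × ℤ)) ⊆
        Good φ Pool.Agent.K1H97.WA.CC M a₀ b₀ V X := by
    intro t ht
    rw [Finset.mem_coe, Finset.mem_filter, Pool.Agent.Y676.mem_Bx] at ht
    obtain ⟨⟨⟨h1, h2⟩, h3, h4, h5⟩, h6, h7, h8⟩ := ht
    obtain ⟨u, hu, hu1, hu2⟩ := h6.re
    have hover : ∀ D : ℤ, D ≠ 0 → Pool.Agent.K1H82.LQ.PK t.1 t.2 D →
        false ∈ φ (weier (D ^ 2 * (short t.1 t.2).1) (D ^ 3 * (short t.1 t.2).2)) := by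
      intro D hD0 hD
      have t2 := tv_short hD.tw
      have e1 : D ^ 2 * (short t.1 t.2).1 = (short (D * t.1) (D * t.2)).1 :=
        (Pool.Agent.K1H82.LQ.c_tw D t.1 t.2).1
      have e2 : D ^ 3 * (short t.1 t.2).2 = (short (D * t.1) (D * t.2)).2 :=
        (Pool.Agent.K1H82.LQ.c_tw D t.1 t.2).2
      rw [e1, e2]
      exact hcrit (Pool.Agent.K1H82.LQ.c_disc (mul_ne_zero hD0 h3) (mul_ne_zero hD0 h4)
        (fun h => h5 (mul_left_cancel₀ hD0 h))) (short_root _ _) t2
    have h0 : false ∈ φ (weier (short t.1 t.2).1 (short t.1 t.2).2) :=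
      hcrit (Pool.Agent.K1H82.LQ.c_disc h3 h4 h5) (short_root _ _) (tv_short h7)
    refine ⟨abs_le.2 h1, abs_le.2 h2, h6.ca, h6.cb, ?_, h3, h4, h5, h0, small_of (h8.mono hover)⟩
    have hin : (u⁻¹ * (t.1 : ℝ), u⁻¹ * (t.2 : ℝ)) ∈ V := by
      have hw : ∀ z γ : ℝ, |z - u * γ| < u * δ → |u⁻¹ * z - γ| < δ := by
        intro z γ hz
        have e : u⁻¹ * z - γ = u⁻¹ * (z - u * γ) := by
          rw [mul_sub, inv_mul_cancel_left₀ hu.ne']
        rw [e, abs_mul, abs_of_pos (inv_pos.2 hu)]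
        calc u⁻¹ * |z - u * γ| < u⁻¹ * (u * δ) := mul_lt_mul_of_pos_left hz (inv_pos.2 hu)
          _ = δ := inv_mul_cancel_left₀ hu.ne' _
      apply hball
      rw [Metric.mem_ball, Prod.dist_eq, max_lt_iff, Real.dist_eq, Real.dist_eq]
      exact ⟨hw _ _ hu1, hw _ _ hu2⟩
    have := hcone _ hin u hu
    rw [Prod.smul_mk, smul_eq_mul, smul_eq_mul, mul_inv_cancel_left₀ hu.ne',
      mul_inv_cancel_left₀ hu.ne'] at this
    exact this
  have h := Set.ncard_le_ncard hsub hfin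
  rw [Set.ncard_coe_finset] at h
  exact_mod_cast h

end Pool.Agent.Results.MP_d6ddbd_nt.EveryLocalCondition
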