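import Mathlib
import Pool.Agent.R395.FT.Alg
import Pool.Agent.K1H6.LC.Fin
import Pool.Agent.Y667.RP.Disc
import Pool.Agent.W672.FK.Lowf
import Pool.Agent.W307.RT.Tors
import Pool.Agent.W513.FK.Parf
import Pool.Agent.Y679.Cr.Conv
import Pool.Agent.Y679.Cr.Dens

/-!
# A partial algorithm which proves finiteness for many curves in every residue class

One partial computable function `φ` on the polynomials `f(x, y)` with integer coefficients, which
answers correctly, whenever it is defined, whether `f(x, y) = 0` has infinitely many rational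
solutions (the search of `FullTwoTorsion.lean`). We prove that its domain is not confined to special
residue classes: let `M` be odd and let `α`, `β`, `α - β` be invertible modulo `M`. Then `φ` halts with
the answer `false` for a positive proportion of all the elliptic curves over `ℚ` with full rational
2-torsion, ordered by the naive height, by the minimal discriminant or by the conductor, all of them
of the form `y² = (x - e₁) (x - e₂) (x - e₃)` with `e₂ - e₁ ≡ α` and `e₃ - e₁ ≡ β` modulo `M`. So the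
good reductions of the curve at any finite number of odd primes, and even the equation modulo powers of
these primes, can be prescribed. Nothing is assumed on `Ш`.

The search and its correctness: `Pool/Agent/R395/FT/*.lean` (helper395). The positive proportions with
prescribed classes: `Pool/Agent/K1H6/LC/*.lean` (helper6). The comparison of the three orderings:
`Pool/Agent/Y667/RP`, `Pool/Agent/Y679/Cr`.
-/

set_option autoImplicit false

namespace Pool.Agent.Results.MP_d6ddbd_nt.EveryResidueClass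

open Finset Filter Topology

/-- the set `Z_f(ℚ)` of the rational zeros of `f = ∑ L_(i,j) x^i y^j` -/
def Zeros (L : List (List ℤ)) : Set (ℚ × ℚ) := {p : ℚ × ℚ |
  ∑ i ∈ Finset.range L.length, ∑ j ∈ Finset.range (L.getD i []).length,
    (((L.getD i []).getD j 0 : ℤ) : ℚ) * p.1 ^ i * p.2 ^ j = 0}

/-- the polynomial `y² - x³ - A x - B` -/
def weier (A B : ℤ) : List (List ℤ) := [[-B, 0, 1], [-A], [], [-1]]

/-- the curve `y² = x³ + A x + B` over `ℚ` -/
def E (A B : ℤ) : WeierstrassCurve ℚ := ⟨0, 0, 0, (A : ℚ), (B : ℚ)⟩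

/-- the absolute value of the minimal discriminant of an elliptic curve `W` over `ℚ`: the smallest
absolute value of the discriminant of a Weierstrass equation `V` with integer coefficients which is
isomorphic to `W` over `ℚ` -/
noncomputable def minDisc (W : WeierstrassCurve ℚ) : ℕ :=
  sInf {n : ℕ | ∃ (V : WeierstrassCurve ℤ) (C : WeierstrassCurve.VariableChange ℚ),
    C • W = V.map (Int.castRingHom ℚ) ∧ n = V.Δ.natAbs}

/-- The prime-to-6 part of the conductor of `y² = x³ + A x + B` (there is no prime `p` with `p⁴ ∣ A`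
and `p⁶ ∣ B`): the product over the primes `p ≥ 5` dividing `4 A³ + 27 B²` of `p` (multiplicative
reduction: `p ∤ A`) or `p²` (additive reduction: `p ∣ A`) -/
def Cond6 (c : ℤ × ℤ) : ℕ :=
  ∏ p ∈ (Int.natAbs (4 * c.1 ^ 3 + 27 * c.2 ^ 2)).primeFactors.filter (fun p => 5 ≤ p),
    if (p : ℤ) ∣ c.1 then p ^ 2 else p

/-- the admissible factors: functions with values between `1` and `2 ^ 8 * 3 ^ 5`, for instance the
part of the conductor composed of the primes 2 and 3, or `f = 1` -/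
def Factor (f : ℤ × ℤ → ℕ) : Prop := ∀ c, 1 ≤ f c ∧ f c ≤ 2 ^ 8 * 3 ^ 5

/-- the naive height of `y² = x³ + A x + B` is at most `Z` -/
def HeightLe (c : ℤ × ℤ) (Z : ℕ) : Prop := 4 * |c.1| ^ 3 ≤ Z ∧ 27 * c.2 ^ 2 ≤ Z

/-- the minimal discriminant of `y² = x³ + A x + B` is at most `Z` in absolute value -/
def DiscLe (c : ℤ × ℤ) (Z : ℕ) : Prop := minDisc (E c.1 c.2) ≤ Z

/-- the prime-to-6 part of the conductor of `y² = x³ + A x + B` times the factor `f` is at most `Z`
(for a suitable factor `f`: the conductor is at most `Z`) -/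
def CondLe (f : ℤ × ℤ → ℕ) (c : ℤ × ℤ) (Z : ℕ) : Prop := f c * Cond6 c ≤ Z

/-- the orderings: by the naive height, by the minimal discriminant, by the conductor (up to an
arbitrary bounded factor) -/
def Ordering3 (I : ℤ × ℤ → ℕ → Prop) : Prop :=
  I = HeightLe ∨ I = DiscLe ∨ ∃ f : ℤ × ℤ → ℕ, Factor f ∧ I = CondLe f

/-- The pairs `(A, B)` of integers such that `4 A³ + 27 B² ≠ 0`, there is no prime `p` with
`p⁴ ∣ A` and `p⁶ ∣ B`, `Z/2 x Z/2` embeds in the group of the rational points of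
`y² = x³ + A x + B`, and the size is at most `Z`. Every elliptic curve over `ℚ` with full rational
2-torsion is isomorphic to `E A B` for exactly one pair with the first three properties. -/
def Fam (I : ℤ × ℤ → ℕ → Prop) (Z : ℕ) : Set (ℤ × ℤ) :=
  {c : ℤ × ℤ | 4 * c.1 ^ 3 + 27 * c.2 ^ 2 ≠ 0 ∧
    (∀ p : ℕ, p.Prime → ¬ ((p : ℤ) ^ 4 ∣ c.1 ∧ (p : ℤ) ^ 6 ∣ c.2)) ∧
    (∃ f : ZMod 2 × ZMod 2 →+ (E c.1 c.2).toAffine.Point, Function.Injective f) ∧ I c Z}

/-- the proportion of the curves of `S` among the curves of size at most `Z` -/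
noncomputable def proportion (I : ℤ × ℤ → ℕ → Prop) (S : Set (ℤ × ℤ)) (Z : ℕ) : ℝ :=
  ((Fam I Z ∩ S).ncard : ℝ) / (Fam I Z).ncard

/-- The residue class: `x³ + A x + B = (x - e₁) (x - e₂) (x - e₃)` with integers `e₁`, `e₂`, `e₃`,
`e₂ - e₁ ≡ α` and `e₃ - e₁ ≡ β` modulo `M`. If `α`, `β`, `α - β` are prime to the odd number `M`,
then `E` has good reduction at the primes `p` of `M`, and its reduction is the curve
`y² = x (x - α) (x - β)` over `𝔽_p`. -/
def Class (M : ℕ) (α β : ℤ) : Set (ℤ × ℤ) :=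
  {c | ∃ e₁ e₂ e₃ : ℤ, (∀ x : ℤ, x ^ 3 + c.1 * x + c.2 = (x - e₁) * (x - e₂) * (x - e₃)) ∧
    (M : ℤ) ∣ e₂ - e₁ - α ∧ (M : ℤ) ∣ e₃ - e₁ - β}

lemma zeros_eq {e : ℤ × ℤ × ℤ} (hs : e.1 + e.2.1 + e.2.2 = 0) :
    Zeros (Pool.Agent.R395.FT.wei e) = Pool.Agent.R395.FT.Pts e.1 e.2.1 e.2.2 := by
  obtain ⟨e1, e2, e3⟩ := e
  have hs' : (e1 : ℚ) + e2 + e3 = 0 := by
    have : e1 + e2 + e3 = 0 := hs
    exact_mod_cast this
  ext ⟨x, y⟩
  unfold Zeros Pool.Agent.R395.FT.wei Pool.Agent.R395.FT.weier Pool.Agent.R395.FT.Pts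
  simp only [Set.mem_ofPred_eq, List.length_cons, List.length_nil, Finset.sum_range_succ,
    Finset.sum_range_zero, List.getD_cons_zero, List.getD_cons_succ, List.getD_nil]
  push_cast
  constructor
  · intro h
    linear_combination h + x ^ 2 * hs'
  · intro h
    linear_combination h - x ^ 2 * hs'

/-- the roots -/
lemma exists_roots {A B : ℤ} (hD : 4 * A ^ 3 + 27 * B ^ 2 ≠ 0)
    (hT : ∃ f : ZMod 2 × ZMod 2 →+ (E A B).toAffine.Point, Function.Injective f) :
    ∃ e : ℤ × ℤ × ℤ, Pool.Agent.R395.FT.Dis e ∧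
    weier A B = Pool.Agent.R395.FT.wei e ∧
    ∀ x : ℤ, x ^ 3 + A * x + B = (x - e.1) * (x - e.2.1) * (x - e.2.2) := by
  have hT' : Pool.Agent.W307.RT.HasT 2 (Pool.Agent.W307.RT.Sh A B) :=
    Pool.Agent.W307.RT.tors_iff.2 hT
  obtain ⟨F, -, hF⟩ := Pool.Agent.W513.FK.parf
  obtain ⟨-, -, -, -, -, e1, e2, e3, hroot, -, -⟩ := hF (A, B) hD hT'
  have hroot : ∀ x : ℤ, x ^ 3 + A * x + B = (x - e1) * (x - e2) * (x - e3) := hroot
  obtain ⟨hs, hA, hB⟩ := Pool.Agent.W402.FK.coef A B e1 e2 e3 hroot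
  obtain ⟨h12, h13, h23⟩ := Pool.Agent.W402.FK.dist A B e1 e2 e3 hD hroot
  refine ⟨(e1, e2, e3), ⟨⟨h12, h13, h23⟩, hs⟩, ?_, hroot⟩
  unfold weier Pool.Agent.R395.FT.wei Pool.Agent.R395.FT.weier
  rw [hA, hB]

lemma FamH_eq (H : ℕ) : Fam HeightLe H = (Pool.Agent.W307.RT.Cv 2 H : Set (ℤ × ℤ)) := by
  classical
  ext c
  have h : Pool.Agent.W307.RT.HasT 2 (Pool.Agent.W307.RT.Sh c.1 c.2) ↔
    ∃ f : ZMod 2 × ZMod 2 →+ (E c.1 c.2).toAffine.Point, Function.Injective f :=
    Pool.Agent.W307.RT.tors_iff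
  unfold Fam HeightLe Pool.Agent.W307.RT.Cv
  rw [Set.mem_ofPred_eq, mem_coe, mem_filter, h, mem_product, mem_Icc, mem_Icc]
  constructor
  · rintro ⟨h1, h2, h3, h4, h5⟩
    refine ⟨⟨?_, ?_⟩, h1, h4, h5, h2, h3⟩
    · rw [← abs_le]
      have h0 := abs_nonneg c.1
      rcases eq_or_lt_of_le h0 with h6 | h6
      · rw [← h6]; positivity
      · have : 1 ≤ |c.1| := h6
        nlinarith [mul_nonneg h0 h0, mul_self_nonneg (|c.1| - 1)]
    · rw [← abs_le]
      have h0 := abs_nonneg c.2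
      rw [← sq_abs] at h5
      rcases eq_or_lt_of_le h0 with h6 | h6
      · rw [← h6]; positivity
      · have : 1 ≤ |c.2| := h6
        nlinarith
  · rintro ⟨-, h1, h4, h5, h2, h3⟩
    exact ⟨h1, h2, h3, h4, h5⟩

lemma FamD_eq (D : ℕ) : Fam DiscLe D = (Pool.Agent.TH344.DS.Dv D : Set (ℤ × ℤ)) := by
  classical
  have h0 : Fam DiscLe D = Pool.Agent.W307.RS.DvS 2 D := by
    ext c
    have h : Pool.Agent.W307.RT.HasT 2 (Pool.Agent.W307.RT.Sh c.1 c.2) ↔
        ∃ f : ZMod 2 × ZMod 2 →+ (E c.1 c.2).toAffine.Point, Function.Injective f :=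
      Pool.Agent.W307.RT.tors_iff
    unfold Fam Pool.Agent.W307.RS.DvS
    rw [Set.mem_ofPred_eq, Set.mem_ofPred_eq, h]
    exact Iff.rfl
  rw [h0]
  unfold Pool.Agent.TH344.DS.Dv
  rw [dif_pos (Pool.Agent.TH344.DS.excd.1 D), Set.Finite.coe_toFinset]

/-- The number of these curves tends to infinity (ordering by height). -/
lemma tendstoH : Tendsto (fun Z : ℕ => (Fam HeightLe Z).ncard) atTop atTop := by
  simp only [FamH_eq, Set.ncard_coe_finset]
  exact Pool.Agent.W307.RT.tendsto_of_low Pool.Agent.W672.FK.lowf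

/-- The number of these curves tends to infinity (ordering by the minimal discriminant). -/
lemma tendstoD : Tendsto (fun Z : ℕ => (Fam DiscLe Z).ncard) atTop atTop := by
  have h1 := Pool.Agent.W307.RT.tendsto_of_low Pool.Agent.W672.FK.lowf
  have h2 : Tendsto (fun D : ℕ => (Pool.Agent.W307.RT.Cv 2 (D / 32)).card) atTop atTop :=
    h1.comp (Nat.tendsto_div_const_atTop (by norm_num))
  obtain ⟨hD1, hD2, hD3⟩ := Pool.Agent.TH344.DS.excd
  refine tendsto_atTop_mono (fun D => ?_) h2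
  have h3 : (Pool.Agent.TH344.DS.Dv D : Set (ℤ × ℤ)) = Pool.Agent.W307.RS.DvS 2 D := by
    unfold Pool.Agent.TH344.DS.Dv
    rw [dif_pos (hD1 D), Set.Finite.coe_toFinset]
  rw [FamD_eq, h3, ← Set.ncard_coe_finset]
  exact Set.ncard_le_ncard (Pool.Agent.W307.RS.Cv_sub Pool.Agent.W554.RS.mdl 2 (D / 32) D
    (Nat.mul_div_le D 32)) (hD1 D)

/-- the property without the size -/
def Pr (c : ℤ × ℤ) : Prop := 4 * c.1 ^ 3 + 27 * c.2 ^ 2 ≠ 0 ∧
    (∀ p : ℕ, p.Prime → ¬ ((p : ℤ) ^ 4 ∣ c.1 ∧ (p : ℤ) ^ 6 ∣ c.2)) ∧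
    (∃ g : ZMod 2 × ZMod 2 →+ (E c.1 c.2).toAffine.Point, Function.Injective g)

lemma good : Pool.Agent.Y679.Cr.Good Pr := by
  classical
  refine ⟨fun c hc => ⟨?_, ?_⟩, fun H c hc => ?_, Pool.Agent.W672.FK.lowf⟩
  · exact Pool.Agent.Y679.Cr.isMin_of hc.1 hc.2.1
  · exact Pool.Agent.Y679.Cr.full_of (Pool.Agent.W307.RT.tors_iff.2 hc.2.2)
  · unfold Pool.Agent.W307.RT.Cv at hc
    obtain ⟨-, h1, -, -, h2, h3⟩ := mem_filter.1 hc
    exact ⟨h1, h2, Pool.Agent.W307.RT.tors_iff.1 h3⟩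

lemma cond_eq (c : ℤ × ℤ) : Pool.Agent.Y679.Cr.cs c = Cond6 c := by
  unfold Pool.Agent.Y679.Cr.cs Pool.Agent.H925R.Szpiro.condS Cond6
  rw [Pool.Agent.Y679.Cr.D_neg, Int.natAbs_neg]
  refine prod_congr rfl fun p _ => ?_
  by_cases h : (p : ℤ) ∣ c.1
  · rw [if_pos h, if_pos (Int.dvd_neg.2 h)]
  · rw [if_neg h, if_neg fun h' => h (Int.dvd_neg.1 h')]

lemma bdd {f : ℤ × ℤ → ℕ} (hf : Factor f) : Pool.Agent.Y679.Cr.Bdd f :=
  fun c => ⟨(hf c).1, (hf c).2.trans (by norm_num)⟩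

lemma FamC_eq (f : ℤ × ℤ → ℕ) (Z : ℕ) : Fam (CondLe f) Z = Pool.Agent.Y679.Cr.Gm Pr f Z := by
  ext c
  unfold Fam CondLe Pool.Agent.Y679.Cr.Gm
  rw [Set.mem_ofPred_eq, Set.mem_ofPred_eq, cond_eq]
  exact ⟨fun h => ⟨⟨h.1, h.2.1, h.2.2.1⟩, h.2.2.2⟩, fun h => ⟨h.1.1, h.1.2.1, h.1.2.2, h.2⟩⟩

/-- from the height to the three orderings -/
lemma three_orderings (T : ℤ × ℤ → Prop) (S : Set (ℤ × ℤ)) (hTS : ∀ c, Pr c → T c → c ∈ S)
    (h : open Classical in ∃ c : ℝ, 0 < c ∧ ∃ H0 : ℕ, ∀ H : ℕ, H0 ≤ H →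
      c * ((Pool.Agent.W307.RT.Cv 2 H).card : ℝ) ≤
        (((Pool.Agent.W307.RT.Cv 2 H).filter T).card : ℝ)) :
    ∃ δ : ℝ, 0 < δ ∧ ∀ I, Ordering3 I → ∀ᶠ Z : ℕ in atTop, δ ≤ proportion I S Z := by
  classical
  have h0 : ∃ c : ℝ, 0 < c ∧ ∃ H0 : ℕ, ∀ H : ℕ, H0 ≤ H →
      c * ((Pool.Agent.W307.RT.Cv 2 H).card : ℝ) ≤
        (((Pool.Agent.W307.RT.Cv 2 H).filter T).card : ℝ) := by
    obtain ⟨c, hc, H0, h⟩ := h
    refine ⟨c, hc, H0, fun H hH => (h H hH).trans (Nat.cast_le.2 (card_le_card fun k hk => ?_))⟩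
    rw [mem_filter] at hk ⊢
    exact hk
  obtain ⟨c1, hc1, H1, h1⟩ := h0
  obtain ⟨c2, hc2, H2, h2⟩ := Pool.Agent.Y667.RP.disc_of_height T ⟨c1, hc1, H1, h1⟩
  obtain ⟨c3, hc3, h3⟩ := Pool.Agent.Y679.Cr.pos good (T := T) (by
    refine ⟨c1, hc1, H1, fun H hH => ⟨_, fun k hk => ?_, h1 H hH⟩⟩
    exact mem_filter.1 (mem_coe.1 hk))
  refine ⟨min c1 (min c2 c3), lt_min hc1 (lt_min hc2 hc3), fun I hI => ?_⟩
  rcases hI with rfl | rfl | ⟨f, hf, rfl⟩
  · filter_upwards [eventually_ge_atTop H1, tendstoH.eventually_ge_atTop 1] with H hH hH1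
    refine (min_le_left _ _).trans ?_
    unfold proportion
    rw [le_div_iff₀ (by exact_mod_cast hH1)]
    have e1 : (Fam HeightLe H).ncard = (Pool.Agent.W307.RT.Cv 2 H).card := by
      rw [FamH_eq, Set.ncard_coe_finset]
    rw [e1]
    refine (h1 H hH).trans (Nat.cast_le.2 ?_)
    rw [← Set.ncard_coe_finset]
    refine Set.ncard_le_ncard (fun k hk => ?_) (Set.Finite.inter_of_left (by
      rw [FamH_eq]
      exact finite_toSet _) _)
    rw [mem_coe, mem_filter] at hk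
    have hk1 : k ∈ Fam HeightLe H := by
      rw [FamH_eq, mem_coe]
      exact hk.1
    exact ⟨hk1, hTS k ⟨hk1.1, hk1.2.1, hk1.2.2.1⟩ hk.2⟩
  · filter_upwards [eventually_ge_atTop H2, tendstoD.eventually_ge_atTop 1] with H hH hH1
    refine ((min_le_right _ _).trans (min_le_left _ _)).trans ?_
    unfold proportion
    rw [le_div_iff₀ (by exact_mod_cast hH1)]
    have e1 : (Fam DiscLe H).ncard = (Pool.Agent.TH344.DS.Dv H).card := by
      rw [FamD_eq, Set.ncard_coe_finset]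
    rw [e1]
    refine (h2 H hH).trans (Nat.cast_le.2 ?_)
    rw [← Set.ncard_coe_finset]
    refine Set.ncard_le_ncard (fun k hk => ?_) (Set.Finite.inter_of_left (by
      rw [FamD_eq]
      exact finite_toSet _) _)
    rw [mem_coe, mem_filter] at hk
    have hk1 : k ∈ Fam DiscLe H := by
      rw [FamD_eq, mem_coe]
      exact hk.1
    exact ⟨hk1, hTS k ⟨hk1.1, hk1.2.1, hk1.2.2.1⟩ hk.2⟩
  · filter_upwards [h3 f (bdd hf)] with Z hZ
    refine ((min_le_right _ _).trans (min_le_right _ _)).trans (hZ.trans ?_)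
    unfold proportion
    rw [FamC_eq]
    refine div_le_div_of_nonneg_right (Nat.cast_le.2 (Set.ncard_le_ncard ?_
      ((Pool.Agent.Y679.Cr.Gm_fin good (bdd hf) Z).subset Set.inter_subset_left)))
      (Nat.cast_nonneg _)
    rintro k ⟨h4, h5⟩
    exact ⟨h4, hTS k h4.1 h5⟩

/-- **Theorem.** There is a partial computable function `φ` from the lists of lists of integers
(polynomials `f(x, y)`) to `{true, false}` such that
(1) if `φ(f)` is defined, then it is `true` if and only if `f` has infinitely many rational zeros;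
(2) order the elliptic curves over `ℚ` with full rational 2-torsion by the naive height, by the
minimal discriminant or by the conductor (`Ordering3`): there are finitely many curves of size at most
`Z`, and their number tends to infinity; for every odd `M` and all `α`, `β` such that `α β (α - β)` is
prime to `M` a positive proportion (lower density at least `δ > 0`, where `δ` does not depend on the
ordering) of all these curves `y² = x³ + A x + B` is in the residue class of `α`, `β` modulo `M` and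
satisfies `φ(y² - x³ - A x - B) = false`. -/
theorem result :
    ∃ φ : List (List ℤ) →. Bool, Partrec φ ∧
    (∀ L, ∀ r ∈ φ L, (r = true ↔ (Zeros L).Infinite)) ∧
    (∀ I, Ordering3 I → (∀ Z : ℕ, (Fam I Z).Finite) ∧
      Tendsto (fun Z : ℕ => (Fam I Z).ncard) atTop atTop) ∧
    ∀ (M : ℕ) (α β : ℤ), Odd M → IsCoprime (α * β * (α - β)) (M : ℤ) →
      ∃ δ : ℝ, 0 < δ ∧ ∀ I, Ordering3 I → ∀ᶠ Z : ℕ in atTop,
        δ ≤ proportion I (Class M α β ∩ {c | false ∈ φ (weier c.1 c.2)}) Z := by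
  classical
  obtain ⟨φ, hφ, hdom, hval⟩ := Pool.Agent.R395.FT.exists_alg
  -- soundness
  have hinf : ∀ L, Pool.Agent.R395.FT.PInf L → (Zeros L).Infinite := by
    intro L h
    obtain ⟨e, h1, rfl, h2⟩ := Pool.Agent.R395.FT.pInf_sound h
    rw [zeros_eq h1.2]
    exact h2
  have hfin : ∀ L, Pool.Agent.R395.FT.PFin L → ¬ (Zeros L).Infinite := by
    intro L h
    obtain ⟨e, h1, rfl, h2, -⟩ := Pool.Agent.R395.FT.pFin_sound h
    rw [zeros_eq h1.2, Set.not_infinite]
    exact h2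
  have hsound : ∀ L, ∀ r ∈ φ L, (r = true ↔ (Zeros L).Infinite) := by
    intro L r hr
    rcases hval L r hr with ⟨rfl, h⟩ | ⟨rfl, h⟩
    · exact ⟨fun _ => hinf L h, fun _ => rfl⟩
    · exact ⟨fun h' => Bool.noConfusion h', fun h' => absurd h' (hfin L h)⟩
  have hfalse : ∀ L, Pool.Agent.R395.FT.PFin L → false ∈ φ L := by
    intro L h
    obtain ⟨r, hr⟩ := Part.dom_iff_mem.1 ((hdom L).2 (Or.inr h))
    rcases hval _ _ hr with ⟨-, h1⟩ | ⟨h1, -⟩
    · exact absurd (hinf _ h1) (hfin _ h)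
    · rw [h1] at hr
      exact hr
  refine ⟨φ, hφ, hsound, ?_, fun M α β hM hαβ => ?_⟩
  · rintro I (rfl | rfl | ⟨f, hf, rfl⟩)
    · refine ⟨fun Z => ?_, tendstoH⟩
      rw [FamH_eq]
      exact finite_toSet _
    · refine ⟨fun Z => ?_, tendstoD⟩
      rw [FamD_eq]
      exact finite_toSet _
    · constructor
      · intro Z
        rw [FamC_eq]
        exact Pool.Agent.Y679.Cr.Gm_fin good (bdd hf) Z
      · simp only [FamC_eq]
        exact Pool.Agent.Y679.Cr.Gm_tendsto good (bdd hf)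
  · refine three_orderings (Pool.Agent.K1H6.LC.TL 0 M α β)
      (Class M α β ∩ {c | false ∈ φ (weier c.1 c.2)}) (fun c hc h => ?_) ?_
    · obtain ⟨h1, h2, h3, -⟩ := h
      obtain ⟨e, g3, g4, g5⟩ := exists_roots hc.1 hc.2.2
      refine ⟨h1, ?_⟩
      change false ∈ φ (weier c.1 c.2)
      rw [g4]
      exact hfalse _ (Pool.Agent.R395.FT.pFin_complete g3 g5 h2 (h3.trans (by norm_num)).le)
    · obtain ⟨c, hc, H0, h⟩ := Pool.Agent.K1H6.LC.curvesL hM hαβ (r := 0) (Or.inl rfl)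
      exact ⟨c, hc, H0, h⟩

end Pool.Agent.Results.MP_d6ddbd_nt.EveryResidueClass
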