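import Mathlib
import Pool.Agent.K1H97.ST.SelC
import Pool.Agent.K1H97.ST.Law
import Pool.Agent.R395.FT.Alg
import Pool.Agent.Y676.Tsm
import Pool.Agent.Y660.TS.Rnk
import Pool.Agent.Y660.TS.Mom
import Pool.Agent.Y46.KEY.Key
import Pool.Agent.W307.RT.Tors

/-!
# One partial algorithm, and the twists of almost all tuples of curves with full 2-torsion

There is one partial computable function `φ` on the polynomials `f(x, y)` with integer coefficients
(lists of coefficient lists) which answers correctly the question whether `f(x, y) = 0` has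
infinitely many rational solutions whenever it is defined, and such that for almost all `k`-tuples
of elliptic curves `y² = x³ + A_i x + B_i` with full rational 2-torsion, ordered by height, and for a
positive proportion of the primes `q` up to any bound `Q ≥ (log H) ^ C`: there is `M`, prime to `q`,
such that for all products `D` of `q` and of different primes `r_1, …, r_n ≡ 1` modulo `M` the
function `φ` is defined at the polynomial `y² - x³ - A_i D² x - B_i D³` with the value `false` (finite)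
if and only if the graph with the vertices `q, r_1, …, r_n`, two of them adjacent when they are
nonresidues modulo each other, has an odd number of spanning trees, simultaneously for all `i`. If the
`r_j` vary in boxes, in given classes modulo `M q` not all of which are residues modulo `q`, then the
proportion of the tuples for which this happens is, up to a power saving, an explicit product which
is at least `∏_{i ≥ 0} (1 - 2^{-(2i+1)}) = 0.419…`.

The partial algorithm is that of helper395 (`MP_d6ddbd_nt/FullTwoTorsion`, `R395/FT`), which searches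
for five inequivalent points and for a proof by congruences that the 2-Selmer group has only four
elements. New here: for the twists of almost all `k`-tuples of curves by all the products `D` the
condition is the one on the graph (`K1H97/ST`, see also `MP_8cb858_nt/SpanningTrees`), and its law.
-/

set_option autoImplicit false

namespace Pool.Agent.Results.MP_d6ddbd_nt.SpanningTreeTwists

open Finset

/-- the set `Z_f(ℚ)` of the rational zeros of `f = ∑ L_(i,j) x^i y^j` -/
def Zeros (L : List (List ℤ)) : Set (ℚ × ℚ) := {p : ℚ × ℚ |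
  ∑ i ∈ Finset.range L.length, ∑ j ∈ Finset.range (L.getD i []).length,
    (((L.getD i []).getD j 0 : ℤ) : ℚ) * p.1 ^ i * p.2 ^ j = 0}

/-- the polynomial `y² - x³ - A x - B` -/
def weier (A B : ℤ) : List (List ℤ) := [[-B, 0, 1], [-A], [], [-1]]

/-- the polynomial `y² - x³ - A D² x - B D³` of the twist by `D` of the curve
`y² = x³ + A x + B`, `c = (A, B)` -/
def tw (D : ℕ) (c : ℤ × ℤ) : List (List ℤ) := weier ((D : ℤ) ^ 2 * c.1) ((D : ℤ) ^ 3 * c.2)

/-- the curve `y² = x³ + A x + B` over `ℚ` -/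
def E (A B : ℤ) : WeierstrassCurve ℚ := ⟨0, 0, 0, (A : ℚ), (B : ℚ)⟩

open Classical in
/-- The pairs `(A, B)` of integers such that `4 A³ + 27 B² ≠ 0`, there is no prime `p` with
`p⁴ ∣ A` and `p⁶ ∣ B`, the height `max (4 |A|³) (27 B²)` is at most `H`, and `Z/2 x Z/2` embeds in
the group of the rational points of `y² = x³ + A x + B`. (The bounds `|A|, |B| ≤ H` follow from the
bound of the height. Every elliptic curve over `ℚ` is isomorphic to `E A B` for exactly one pair
with the first two properties.) -/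
noncomputable def Fam (H : ℕ) : Finset (ℤ × ℤ) :=
  ((Icc (-(H : ℤ)) H) ×ˢ (Icc (-(H : ℤ)) H)).filter (fun c : ℤ × ℤ =>
    4 * c.1 ^ 3 + 27 * c.2 ^ 2 ≠ 0 ∧ 4 * |c.1| ^ 3 ≤ H ∧ 27 * c.2 ^ 2 ≤ H ∧
    (∀ p : ℕ, p.Prime → ¬ ((p : ℤ) ^ 4 ∣ c.1 ∧ (p : ℤ) ^ 6 ∣ c.2)) ∧
    ∃ f : ZMod 2 × ZMod 2 →+ (E c.1 c.2).toAffine.Point, Function.Injective f)

open Classical in
/-- `1` when `m` is not a square modulo `p`, otherwise `0` -/
noncomputable def nres (p m : ℕ) : ZMod 2 := if IsSquare (m : ZMod p) then 0 else 1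

/-- The reduced Laplacian modulo `2` of the graph with the vertices `q, r 0, …, r (n - 1)`, two of
them adjacent when they are nonresidues modulo each other (for primes `≡ 1` modulo `4` this is a
symmetric relation): the row and the column of `q` are deleted. By the matrix tree theorem its
determinant is the number of the spanning trees modulo `2`. -/
noncomputable def Lap {n : ℕ} (q : ℕ) (r : Fin n → ℕ) : Matrix (Fin n) (Fin n) (ZMod 2) :=
  Matrix.of fun i j => if i = j then (∑ k, nres (r i) (r k)) + nres (r i) q else nres (r i) (r j)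

open Classical in
/-- the `n`-tuples of different primes `r i ≤ X i`, `r i ≡ a i` modulo `m` -/
noncomputable def Box {n : ℕ} (m : ℕ) (a X : Fin n → ℕ) : Finset (Fin n → ℕ) :=
  (Fintype.piFinset fun i => (range (X i + 1)).filter fun p => p.Prime ∧ p % m = a i % m).filter
    Function.Injective

open Classical in
/-- The proportion for the classes `a`. Let `s` be the number of the `a i` which are not squares
modulo `q`. The proportion is `0` for `s = 0`, and otherwise the product of the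
`1 - 2 ^ (-(2 i + 1))`, `i < n / 2` for odd `s`, `i < (n - 1) / 2` for even `s`. -/
noncomputable def prob {n : ℕ} (q : ℕ) (a : Fin n → ℕ) : ℝ :=
  if (univ.filter fun i => ¬ IsSquare ((a i : ℕ) : ZMod q)).card = 0 then 0
  else if Odd (univ.filter fun i => ¬ IsSquare ((a i : ℕ) : ZMod q)).card then
    ∏ i ∈ range (n / 2), (1 - (1 / 2 : ℝ) ^ (2 * i + 1))
  else ∏ i ∈ range ((n - 1) / 2), (1 - (1 / 2 : ℝ) ^ (2 * i + 1))

open Classical in
/-- The prime `q` is good for the curves `x 1, …, x k`: there is a positive multiple `M` of `8`,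
prime to `q`, such that for all `n ≥ 1`:

* for all `n`-tuples of different primes `r j ≡ 1` modulo `M`, `r j ≠ q`, and all the curves: `φ` says
  that the twist by `q * ∏ r j` has finitely many rational points if and only if
  `det (Lap q r) ≠ 0`; and `φ` is defined at the twist if and only if `det (Lap q r) ≠ 0` or the
  twist has infinitely many rational points;
* for all classes `a j ≡ 1` modulo `M`, prime to `q`, there is a constant `C` such that
  for all `z ≥ 2` and `z ≤ X j ≤ exp (z ^ (1 / (24 n)))` the number of the tuples of different primes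
  `r j ≤ X j`, `r j ≡ a j` modulo `M q`, such that `φ` says that all the twists by `q * ∏ r j` have
  finitely many rational points, is `prob q a` times the number of all the tuples, up to a
  relative error `C * z ^ (-1 / 24)`. -/
def GoodPrime (φ : List (List ℤ) →. Bool) {k : ℕ} (x : Fin k → ℤ × ℤ) (q : ℕ) : Prop :=
  q.Prime ∧ ∃ M : ℕ, 0 < M ∧ 8 ∣ M ∧ Nat.Coprime q M ∧ ∀ n : ℕ, 0 < n →
    (∀ r : Fin n → ℕ, Function.Injective r → (∀ j, (r j).Prime ∧ r j % M = 1 ∧ r j ≠ q) →
      ∀ i, (false ∈ φ (tw (q * ∏ j, r j) (x i)) ↔ (Lap q r).det ≠ 0) ∧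
        ((φ (tw (q * ∏ j, r j) (x i))).Dom ↔
          (Lap q r).det ≠ 0 ∨ (Zeros (tw (q * ∏ j, r j) (x i))).Infinite)) ∧
    ∀ a : Fin n → ℕ, (∀ j, a j % M = 1 ∧ Nat.Coprime (a j) q) → ∃ C : ℝ,
      ∀ (X : Fin n → ℕ) (z : ℕ), 2 ≤ z →
        (∀ j, z ≤ X j ∧ Real.log (X j) ≤ (z : ℝ) ^ (1 / (24 * n : ℝ))) →
        |(((Box (M * q) a X).filter fun r =>
            ∀ i, false ∈ φ (tw (q * ∏ j, r j) (x i))).card : ℝ) -
            prob q a * ((Box (M * q) a X).card : ℝ)| ≤
          C * (z : ℝ) ^ (-(1 / 24 : ℝ)) * ((Box (M * q) a X).card : ℝ)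

open Classical in
/-- the good primes `q ≤ Q` -/
noncomputable def GQ (φ : List (List ℤ) →. Bool) {k : ℕ} (Q : ℕ) (x : Fin k → ℤ × ℤ) :
    Finset ℕ := (Icc 1 Q).filter (GoodPrime φ x)

/-! ### The partial algorithm -/

theorem zeros_eq {e : ℤ × ℤ × ℤ} (hs : e.1 + e.2.1 + e.2.2 = 0) :
    Zeros (Pool.Agent.R395.FT.wei e) = Pool.Agent.R395.FT.Pts e.1 e.2.1 e.2.2 := by
  obtain ⟨e1, e2, e3⟩ := e
  have hs' : (e1 : ℚ) + e2 + e3 = 0 := by
    have : e1 + e2 + e3 = 0 := hs
    exact_mod_cast this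
  ext ⟨x, y⟩
  unfold Zeros Pool.Agent.R395.FT.wei Pool.Agent.R395.FT.weier Pool.Agent.R395.FT.Pts
  simp only [Set.mem_ofPred_eq, List.length_cons, List.length_nil, Finset.sum_range_succ,
    Finset.sum_range_zero, List.getD_cons_zero, List.getD_cons_succ, List.getD_nil]
  push_cast
  constructor
  · intro h
    linear_combination h + x ^ 2 * hs'
  · intro h
    linear_combination h - x ^ 2 * hs'

open Pool.Agent.W307.SE (SelR)

/-- the partial algorithm of helper395 -/
theorem exists_phi : ∃ φ : List (List ℤ) →. Bool, Partrec φ ∧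
    (∀ L, ∀ r ∈ φ L, (r = true ↔ (Zeros L).Infinite)) ∧
    ∀ A B e1 e2 e3 : ℤ, 4 * A ^ 3 + 27 * B ^ 2 ≠ 0 →
      (∀ x : ℤ, x ^ 3 + A * x + B = (x - e1) * (x - e2) * (x - e3)) →
      (false ∈ φ (weier A B) ↔ (SelR A B).Finite ∧ (SelR A B).ncard ≤ 4) ∧
      ((φ (weier A B)).Dom ↔ ((SelR A B).Finite ∧ (SelR A B).ncard ≤ 4) ∨
        (Zeros (weier A B)).Infinite) := by
  obtain ⟨φ, hφ, hdom, hval⟩ := Pool.Agent.R395.FT.exists_alg
  have hinf : ∀ L, Pool.Agent.R395.FT.PInf L → (Zeros L).Infinite := by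
    intro L h
    obtain ⟨e, h1, rfl, h2⟩ := Pool.Agent.R395.FT.pInf_sound h
    rw [zeros_eq h1.2]
    exact h2
  have hfin : ∀ L, Pool.Agent.R395.FT.PFin L → ¬ (Zeros L).Infinite := by
    intro L h
    obtain ⟨e, h1, rfl, h2, -⟩ := Pool.Agent.R395.FT.pFin_sound h
    rw [zeros_eq h1.2, Set.not_infinite]
    exact h2
  have hsound : ∀ L, ∀ r ∈ φ L, (r = true ↔ (Zeros L).Infinite) := by
    intro L r hr
    rcases hval L r hr with ⟨rfl, h⟩ | ⟨rfl, h⟩
    · exact ⟨fun _ => hinf L h, fun _ => rfl⟩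
    · exact ⟨fun h' => Bool.noConfusion h', fun h' => absurd h' (hfin L h)⟩
  have hfalse : ∀ L, Pool.Agent.R395.FT.PFin L → false ∈ φ L := by
    intro L h
    obtain ⟨r, hr⟩ := Part.dom_iff_mem.1 ((hdom L).2 (Or.inr h))
    rcases hval _ _ hr with ⟨-, h1⟩ | ⟨h1, -⟩
    · exact absurd (hinf _ h1) (hfin _ h)
    · rw [h1] at hr
      exact hr
  refine ⟨φ, hφ, hsound, fun A B e1 e2 e3 hD hroot => ?_⟩
  obtain ⟨hs, hA, hB⟩ := Pool.Agent.W402.FK.coef A B e1 e2 e3 hroot
  have hdis := Pool.Agent.W402.FK.dist A B e1 e2 e3 hD hroot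
  obtain ⟨e, he⟩ : ∃ e : ℤ × ℤ × ℤ, e = (e1, e2, e3) := ⟨_, rfl⟩
  have h3 : Pool.Agent.R395.FT.Dis e := by
    rw [he]
    exact ⟨hdis, hs⟩
  have h4 : weier A B = Pool.Agent.R395.FT.wei e := by
    rw [he]
    unfold weier Pool.Agent.R395.FT.wei Pool.Agent.R395.FT.weier
    rw [hA, hB]
  have hroot' : ∀ x : ℤ, x ^ 3 + A * x + B = (x - e.1) * (x - e.2.1) * (x - e.2.2) := by
    rw [he]
    exact hroot
  have hsel : false ∈ φ (weier A B) ↔ (SelR A B).Finite ∧ (SelR A B).ncard ≤ 4 := by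
    constructor
    · intro h
      rcases hval _ _ h with ⟨h1, -⟩ | ⟨-, h1⟩
      · exact Bool.noConfusion h1
      · obtain ⟨e', h2, h3', -, m, l, h4'⟩ := Pool.Agent.R395.FT.pFin_sound h1
        exact Pool.Agent.R395.FT.few_sel hD (Pool.Agent.R395.FT.root_of h2 h3') h4'
    · rintro ⟨h1, h2⟩
      rw [h4]
      exact hfalse _ (Pool.Agent.R395.FT.pFin_complete h3 hroot' h1 h2)
  refine ⟨hsel, ?_⟩
  constructor
  · intro h
    obtain ⟨r, hr⟩ := Part.dom_iff_mem.1 h
    cases r with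
    | true => exact Or.inr ((hsound _ _ hr).1 rfl)
    | false => exact Or.inl (hsel.1 hr)
  · rintro (h | h)
    · exact Part.dom_iff_mem.2 ⟨false, hsel.2 h⟩
    · rw [h4, zeros_eq h3.2] at h
      rw [h4]
      exact (hdom _).2 (Or.inl (Pool.Agent.R395.FT.pInf_complete h3 h))

/-! ### The twists -/

lemma Fam_eq (H : ℕ) : Fam H = Pool.Agent.W307.RT.Cv 2 H := by
  classical
  unfold Fam Pool.Agent.W307.RT.Cv
  apply filter_congr
  intro c _
  have h : Pool.Agent.W307.RT.HasT 2 (Pool.Agent.W307.RT.Sh c.1 c.2) ↔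
      ∃ f : ZMod 2 × ZMod 2 →+ (E c.1 c.2).toAffine.Point, Function.Injective f :=
    Pool.Agent.W307.RT.tors_iff
  rw [h]

lemma lap_eq {n : ℕ} (q : ℕ) (r : Fin n → ℕ) : Lap q r = Pool.Agent.K1H97.ST.Lap q r := rfl

lemma det_iff {n : ℕ} (L : Matrix (Fin n) (Fin n) (ZMod 2)) : L.det ≠ 0 ↔ n - L.rank = 0 := by
  have h1 := L.rank_le_width
  constructor
  · intro h
    have h2 : L.rank = n := by
      rw [Matrix.rank_of_isUnit L ((Matrix.isUnit_iff_isUnit_det L).2 (isUnit_iff_ne_zero.2 h)),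
        Fintype.card_fin]
    omega
  · intro h
    have h2 : L.rank = n := by omega
    have h3 : LinearMap.range L.mulVecLin = ⊤ := by
      apply Submodule.eq_top_of_finrank_eq
      rw [Module.finrank_fintype_fun_eq_card, Fintype.card_fin]
      exact h2
    have h4 : Function.Surjective L.mulVec := fun y => by
      obtain ⟨x, hx⟩ := LinearMap.range_eq_top.1 h3 y
      exact ⟨x, hx⟩
    exact isUnit_iff_ne_zero.1
      ((Matrix.isUnit_iff_isUnit_det L).1 (Matrix.mulVec_surjective_iff_isUnit.1 h4))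

lemma prob_eq {n : ℕ} (hn : 0 < n) (q : ℕ) (a : Fin n → ℕ) :
    prob q a = Pool.Agent.K1H97.ST.pc (fun i => Pool.Agent.Y703.CQ.nr q (a i)) 0 := by
  classical
  have hne : ∀ i, Pool.Agent.Y703.CQ.nr q (a i) ≠ 0 ↔ ¬ IsSquare ((a i : ℕ) : ZMod q) := by
    intro i
    unfold Pool.Agent.Y703.CQ.nr
    by_cases h : IsSquare ((a i : ℕ) : ZMod q)
    · rw [if_pos h]
      simp [h]
    · rw [if_neg h]
      simp [h]
  have h1 : ∑ i, Pool.Agent.Y703.CQ.nr q (a i) =
      ((univ.filter fun i => ¬ IsSquare ((a i : ℕ) : ZMod q)).card : ZMod 2) := by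
    rw [card_filter, Nat.cast_sum]
    refine sum_congr rfl fun i _ => ?_
    by_cases h : IsSquare ((a i : ℕ) : ZMod q)
    · rw [if_neg (not_not.2 h)]
      unfold Pool.Agent.Y703.CQ.nr
      rw [if_pos h, Nat.cast_zero]
    · rw [if_pos h]
      unfold Pool.Agent.Y703.CQ.nr
      rw [if_neg h, Nat.cast_one]
  have h2 : (fun i => Pool.Agent.Y703.CQ.nr q (a i)) = 0 ↔
      (univ.filter fun i => ¬ IsSquare ((a i : ℕ) : ZMod q)).card = 0 := by
    rw [card_eq_zero, filter_eq_empty_iff]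
    constructor
    · intro h i _ h'
      exact (hne i).2 h' (congrFun h i)
    · intro h
      funext i
      by_contra h'
      exact h (mem_univ i) ((hne i).1 h')
  have hspc : ∀ m : ℕ, Pool.Agent.K1H97.ST.spc m 0 =
      ∏ i ∈ range ((m + 1) / 2), (1 - (1 / 2 : ℝ) ^ (2 * i + 1)) := by
    intro m
    unfold Pool.Agent.K1H97.ST.spc
    rw [range_zero, prod_empty, mul_one, Nat.sub_zero]
    rfl
  unfold prob Pool.Agent.K1H97.ST.pc
  rw [h1]
  by_cases h0 : (univ.filter fun i => ¬ IsSquare ((a i : ℕ) : ZMod q)).card = 0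
  · rw [if_pos h0, if_pos (h2.2 h0), if_pos rfl]
  · rw [if_neg h0, if_neg fun h => h0 (h2.1 h), hspc]
    rcases Nat.even_or_odd (univ.filter fun i => ¬ IsSquare ((a i : ℕ) : ZMod q)).card with he | ho
    · have h3 : ((univ.filter fun i => ¬ IsSquare ((a i : ℕ) : ZMod q)).card : ZMod 2) = 0 :=
        (ZMod.natCast_eq_zero_iff_even).2 he
      have h4 : 2 ≤ n := by
        have h5 := card_le_univ (univ.filter fun i => ¬ IsSquare ((a i : ℕ) : ZMod q))
        rw [Fintype.card_fin] at h5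
        obtain ⟨t, ht⟩ := he
        omega
      rw [if_neg (Nat.not_odd_iff_even.2 he), h3, if_neg zero_ne_one]
      have h6 : n - 2 + 1 = n - 1 := by omega
      rw [h6]
    · have h3 : ((univ.filter fun i => ¬ IsSquare ((a i : ℕ) : ZMod q)).card : ZMod 2) = 1 :=
        (ZMod.natCast_eq_one_iff_odd).2 ho
      have h6 : n - 1 + 1 = n := by omega
      rw [if_pos ho, h3, if_pos rfl, h6]

theorem prod_gt (n : ℕ) :
    (0.4194 : ℝ) < ∏ i ∈ range n, (1 - (1 / 2 : ℝ) ^ (2 * i + 1)) := by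
  have key : ∀ m : ℕ, (∏ i ∈ range 5, (1 - (1 / 2 : ℝ) ^ (2 * i + 1))) *
      (1 - 4 / 3 * (1 / 2) ^ 11 + 4 / 3 * (1 / 2) ^ (2 * m + 11)) ≤
        ∏ i ∈ range (m + 5), (1 - (1 / 2 : ℝ) ^ (2 * i + 1)) := by
    intro m
    induction m with
    | zero => norm_num
    | succ m ih =>
      rw [show m + 1 + 5 = (m + 5) + 1 by ring, prod_range_succ _ (m + 5)]
      obtain ⟨x, hx⟩ : ∃ x : ℝ, x = (1 / 2 : ℝ) ^ (2 * m + 11) := ⟨_, rfl⟩
      have e1 : (1 / 2 : ℝ) ^ (2 * (m + 1) + 11) = x / 4 := by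
        rw [hx, show 2 * (m + 1) + 11 = (2 * m + 11) + 2 by ring, pow_add]
        ring
      have e2 : (1 / 2 : ℝ) ^ (2 * (m + 5) + 1) = x := by
        rw [hx]
        congr 1
      rw [e1, e2]
      rw [← hx] at ih
      have hx0 : 0 < x := by rw [hx]; positivity
      have hx1 : x ≤ (1 / 2 : ℝ) ^ 11 := by
        rw [hx]
        exact pow_le_pow_of_le_one (by norm_num) (by norm_num) (by omega)
      obtain ⟨P, hP⟩ : ∃ P : ℝ, P = ∏ i ∈ range 5, (1 - (1 / 2 : ℝ) ^ (2 * i + 1)) := ⟨_, rfl⟩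
      rw [← hP] at ih ⊢
      have hP0 : 0 < P := by
        rw [hP]
        norm_num [prod_range_succ]
      have hx2 : x ≤ 1 := hx1.trans (by norm_num)
      have h1 := mul_le_mul_of_nonneg_right ih (by linarith : 0 ≤ 1 - x)
      refine le_trans ?_ h1
      have h2 : x ≤ (1 / 2 : ℝ) ^ 11 := hx1
      nlinarith [mul_pos hP0 hx0]
  rcases Nat.lt_or_ge n 5 with h | h
  · interval_cases n <;> norm_num [prod_range_succ]
  · obtain ⟨m, rfl⟩ := Nat.exists_eq_add_of_le' h
    refine lt_of_lt_of_le ?_ (key m)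
    have h1 : (0 : ℝ) < (1 / 2) ^ (2 * m + 11) := by positivity
    have h2 : (0.4194 : ℝ) < (∏ i ∈ range 5, (1 - (1 / 2 : ℝ) ^ (2 * i + 1))) *
      (1 - 4 / 3 * (1 / 2) ^ 11) := by
      norm_num [prod_range_succ]
    have h3 : (0 : ℝ) < ∏ i ∈ range 5, (1 - (1 / 2 : ℝ) ^ (2 * i + 1)) := by
      norm_num [prod_range_succ]
    nlinarith [mul_pos h3 h1]

lemma prob_gt {n : ℕ} (q : ℕ) (a : Fin n → ℕ) (h : ∃ j, ¬ IsSquare ((a j : ℕ) : ZMod q)) :
    (0.4194 : ℝ) < prob q a := by
  classical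
  obtain ⟨j, hj⟩ := h
  unfold prob
  have h0 : (univ.filter fun i => ¬ IsSquare ((a i : ℕ) : ZMod q)).card ≠ 0 :=
    card_ne_zero.2 ⟨j, mem_filter.2 ⟨mem_univ _, hj⟩⟩
  rw [if_neg h0]
  split_ifs
  · exact prod_gt _
  · exact prod_gt _

lemma box_eq {n : ℕ} (m : ℕ) (a X : Fin n → ℕ) : Box m a X =
    (Fintype.piFinset fun i => Pool.Agent.R338.EQ.clsM m (a i) (X i)).filter
      Function.Injective := by
  classical
  unfold Box Pool.Agent.R338.EQ.clsM
  congr

/-- the property of the partial function -/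
def Alg (φ : List (List ℤ) →. Bool) : Prop :=
  ∀ A B e1 e2 e3 : ℤ, 4 * A ^ 3 + 27 * B ^ 2 ≠ 0 →
      (∀ x : ℤ, x ^ 3 + A * x + B = (x - e1) * (x - e2) * (x - e3)) →
      (false ∈ φ (weier A B) ↔ (SelR A B).Finite ∧ (SelR A B).ncard ≤ 4) ∧
      ((φ (weier A B)).Dom ↔ ((SelR A B).Finite ∧ (SelR A B).ncard ≤ 4) ∨
        (Zeros (weier A B)).Infinite)

lemma alg_st {φ : List (List ℤ) →. Bool} (hφ : Alg φ) {H : ℕ} {c : ℤ × ℤ}
    (hc : c ∈ Pool.Agent.W307.RT.Cv 2 H) {D : ℕ} (hD : D ≠ 0) {m : ℕ}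
    (h : Pool.Agent.K1H97.ST.St c ((D : ℕ) : ℤ) m) :
    (false ∈ φ (tw D c) ↔ m = 0) ∧
      ((φ (tw D c)).Dom ↔ m = 0 ∨ (Zeros (tw D c)).Infinite) := by
  have hD' : (D : ℤ) ≠ 0 := by exact_mod_cast hD
  obtain ⟨h1, -, e1, e2, e3, h3⟩ := Pool.Agent.K1H97.ST.twist_data hc hD'
  obtain ⟨h4, h5⟩ := Pool.Agent.K1H97.ST.selR_card h1 h3
  obtain ⟨h6, h7⟩ := hφ _ _ e1 e2 e3 h1 h3
  have key : ((SelR ((D : ℤ) ^ 2 * c.1) ((D : ℤ) ^ 3 * c.2)).Finite ∧
      (SelR ((D : ℤ) ^ 2 * c.1) ((D : ℤ) ^ 3 * c.2)).ncard ≤ 4) ↔ m = 0 := by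
    rw [← h5, h.1.2]
    constructor
    · rintro ⟨-, h8⟩
      by_contra hm
      have h9 : (4 : ℕ) ^ 2 ≤ 4 ^ (m + 1) := Nat.pow_le_pow_right (by norm_num) (by omega)
      omega
    · intro hm
      rw [hm]
      exact ⟨h4, le_of_eq (by norm_num)⟩
  rw [key] at h6 h7
  exact ⟨h6, h7⟩

lemma good_of {φ : List (List ℤ) →. Bool} (hφ : Alg φ) {k : ℕ} (hk : 0 < k) {H : ℕ}
    {x : Fin k → ℤ × ℤ} (hx : ∀ i, x i ∈ Pool.Agent.W307.RT.Cv 2 H) {q : ℕ}
    (h : Pool.Agent.K1H97.ST.GP x q) : GoodPrime φ x q := by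
  classical
  obtain ⟨hq, hq8, M, hM, hM8, hcop, h⟩ := h
  have hM1 : 1 < M := by
    have := Nat.le_of_dvd hM hM8
    omega
  have hmod : ∀ {r : ℕ}, r % M = 1 → r ≡ 1 [MOD M] := by
    intro r hr
    unfold Nat.ModEq
    rw [hr, Nat.mod_eq_of_lt hM1]
  have hkey : ∀ (n : ℕ) (r : Fin n → ℕ), Function.Injective r →
      (∀ j, (r j).Prime ∧ r j ≡ 1 [MOD M] ∧ r j ≠ q) → ∀ i,
      (false ∈ φ (tw (q * ∏ j, r j) (x i)) ↔ (Lap q r).det ≠ 0) ∧
        ((φ (tw (q * ∏ j, r j) (x i))).Dom ↔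
          (Lap q r).det ≠ 0 ∨ (Zeros (tw (q * ∏ j, r j) (x i))).Infinite) := by
    intro n r hr hp i
    rw [det_iff, lap_eq]
    refine alg_st hφ (hx i) ?_ (h n r hr hp i)
    exact Nat.mul_ne_zero hq.ne_zero (prod_ne_zero_iff.2 fun j _ => (hp j).1.ne_zero)
  refine ⟨hq, M, hM, hM8, hcop, fun n hn => ⟨fun r hr hp i => ?_, fun a ha => ?_⟩⟩
  · exact hkey n r hr (fun j => ⟨(hp j).1, hmod (hp j).2.1, (hp j).2.2⟩) i
  · have ha1 : ∀ j, Nat.Coprime (a j) (M * q) := by
      intro j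
      refine Nat.Coprime.mul_right ?_ (ha j).2
      have h1 : Nat.gcd (a j) M = 1 := by
        rw [Nat.gcd_comm, Nat.gcd_rec, (ha j).1, Nat.gcd_one_left]
      exact h1
    have ha4 : ∀ j, a j % 4 = 1 := by
      intro j
      have h1 : a j ≡ 1 [MOD 4] := (hmod (ha j).1).of_dvd (Dvd.dvd.trans (by norm_num) hM8)
      exact h1
    obtain ⟨C, -, hC⟩ := Pool.Agent.K1H97.ST.box_law hn hq (by omega) hM
      (Dvd.dvd.trans (by norm_num) hM8) a ha1 ha4 0
    refine ⟨C, fun X z hz hX => ?_⟩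
    have key := hC X z hz (fun j => (hX j).1) (fun j => (hX j).2)
    rw [← prob_eq hn] at key
    have e1 : ((Fintype.piFinset fun i => Pool.Agent.R338.EQ.clsM (M * q) (a i) (X i)).filter
        fun p => Function.Injective p) = Box (M * q) a X := (box_eq _ _ _).symm
    have e2 : ((Fintype.piFinset fun i => Pool.Agent.R338.EQ.clsM (M * q) (a i) (X i)).filter
        fun p => Function.Injective p ∧ n - (Pool.Agent.K1H97.ST.Lap q p).rank = 0) =
        (Box (M * q) a X).filter fun r =>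
          ∀ i, false ∈ φ (tw (q * ∏ j, r j) (x i)) := by
      rw [← e1, filter_filter]
      refine filter_congr fun r hr => and_congr_right fun hinj => ?_
      rw [Fintype.mem_piFinset] at hr
      have hr' : ∀ j, (r j).Prime ∧ r j ≡ 1 [MOD M] ∧ r j ≠ q := by
        intro j
        obtain ⟨-, h2, h3⟩ := Pool.Agent.R338.EQ.mem_clsM.1 (hr j)
        have h3' : r j ≡ a j [MOD M * q] := h3
        refine ⟨h2, (h3'.of_dvd (Dvd.intro q rfl)).trans (hmod (ha j).1), ?_⟩
        intro h4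
        have h5 : r j ≡ a j [MOD q] := h3'.of_dvd (Dvd.intro_left M rfl)
        rw [h4] at h5
        have h6 : q ∣ a j := by
          have h7 : q % q = a j % q := h5
          rw [Nat.mod_self] at h7
          exact Nat.dvd_of_mod_eq_zero h7.symm
        have h8 := Nat.Coprime.eq_one_of_dvd (ha j).2.symm h6
        exact hq.one_lt.ne' h8
      have hst := hkey n r hinj hr'
      rw [← lap_eq, ← det_iff]
      constructor
      · intro hc i
        exact (hst i).1.2 hc
      · intro hc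
        exact (hst ⟨0, hk⟩).1.1 (hc ⟨0, hk⟩)
    rw [e1, e2] at key
    exact key

open Classical in
/-- **Theorem.** There is one partial computable function `φ` on the polynomials `f(x, y)` with integer
coefficients with the following properties. Whenever `φ(f)` is defined, it is the correct answer to
the question whether `f(x, y) = 0` has infinitely many rational solutions. For every `k ≥ 1` there is
a constant `C` such that for every `ε > 0` there is
`κ > 0` such that for all large `H` and all `Q ≥ (log H) ^ C` the following holds for all but at most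
`ε * (#Fam H) ^ k` of the `k`-tuples of elliptic curves over `ℚ` with full rational 2-torsion and
height at most `H`: at least `κ * Q / log Q` primes `q ≤ Q` (a positive proportion of the primes up
to `Q`) are good for the tuple and `φ` (`GoodPrime`): the criterion and the law. The proportion
`prob q a` in the law is larger than `0.4194` as soon as one of the classes is a nonresidue. -/
theorem result :
    (∀ (n q : ℕ) (a : Fin n → ℕ), (∃ j, ¬ IsSquare ((a j : ℕ) : ZMod q)) →
      (0.4194 : ℝ) < prob q a) ∧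
    ∃ φ : List (List ℤ) →. Bool, Partrec φ ∧
    (∀ L, ∀ r ∈ φ L, (r = true ↔ (Zeros L).Infinite)) ∧
    ∀ k : ℕ, 0 < k → ∃ C : ℕ, ∀ ε : ℝ, 0 < ε → ∃ κ : ℝ, 0 < κ ∧ ∃ H₀ : ℕ,
    ∀ H : ℕ, H₀ ≤ H → ∀ Q : ℕ, (Real.log H) ^ C ≤ Q →
    (((Fintype.piFinset (fun _ : Fin k => Fam H)).filter
      (fun x => ¬ κ * Q / Real.log Q ≤ ((GQ φ Q x).card : ℝ))).card : ℝ) ≤
        ε * ((Fam H).card : ℝ) ^ k := by
  refine ⟨fun n q a h => prob_gt q a h, ?_⟩
  obtain ⟨φ, h1, h2, hφ⟩ := exists_phi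
  refine ⟨φ, h1, h2, fun k hk => ⟨Pool.Agent.Y676.CE k, fun ε hε => ?_⟩⟩
  obtain ⟨κ, hκ, H₀, h⟩ := Pool.Agent.K1H97.ST.main
    (Pool.Agent.Y46.KEY.key_of Pool.Agent.Y660.TS.rnk Pool.Agent.Y676.Tsm.tsm)
    Pool.Agent.Y660.TS.mom k hk ε hε
  refine ⟨κ, hκ, H₀, fun H hH Q hQ => ?_⟩
  rw [Fam_eq]
  refine le_trans ?_ (h H hH Q hQ)
  refine Nat.cast_le.2 (card_le_card fun x hx => ?_)
  rw [mem_filter] at hx ⊢
  refine ⟨hx.1, fun h' => hx.2 (h'.trans ?_)⟩
  refine Nat.cast_le.2 (card_le_card fun q hq => ?_)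
  unfold Pool.Agent.K1H97.ST.UQ at hq
  unfold GQ
  rw [mem_filter] at hq ⊢
  exact ⟨hq.1, good_of hφ hk (fun i => Fintype.mem_piFinset.1 hx.1 i) hq.2⟩

end Pool.Agent.Results.MP_d6ddbd_nt.SpanningTreeTwists
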