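import Mathlib
import Pool.Agent.R395.FT.Alg
import Pool.Agent.K1H84.DI.Crit
import Pool.Agent.K1H82.LQ.Main
import Pool.Agent.Y676.Tsm
import Pool.Agent.Y660.TS.Rnk
import Pool.Agent.Y660.TS.Mom
import Pool.Agent.Y46.KEY.Key
import Pool.Agent.W307.RT.Tors
import Pool.Agent.W513.FK.Parf

/-!
# A partial algorithm which decides many twists in every local class

One partial computable function `φ` on the polynomials `f(x, y)` with integer coefficients, which
answers correctly, whenever it is defined, whether `f(x, y) = 0` has infinitely many rational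
solutions (the search of `FullTwoTorsion.lean`). For the elliptic curves `E : y² = x³ + A x + B` with
full rational 2-torsion we show that it has the value `false` at `y² - x³ - A x - B` if and only if
`E(ℚ)` is finite and `Ш(E)[2] = 0`, and that for 100% of these curves, ordered by height, this is so
for many small twists in every local class: let `M ≥ 1`, and call two nonzero integers locally
equivalent if their product is positive and a square in `ℚ_p` for all the primes `p` dividing `M`.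
For almost all `E` every class contains twists by `D₀ n`, `|D₀| ≤ 8 M²`, where `n` is any product of an
odd number of different elements of an infinite set `S` of primes, for which `φ` halts with the answer
`false`; and a positive proportion of the primes `q` up to any bound `Q ≥ (log H) ^ C` are elements of
such sets `S`, so that already the twists by `D₀ q` are decided. So the completions of the twisted
curve at the real place and at any finite number of primes can be prescribed in the quadratic twist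
family. Nothing is assumed on `Ш`.

The search and its correctness: `Pool/Agent/R395/FT/*.lean` (helper395). The twists in every local
class: `Pool/Agent/K1H82/LQ/*.lean` (helper82). New here: the criterion (`K1H84/DI/Crit.lean`) which
connects them.
-/

set_option autoImplicit false

namespace Pool.Agent.Results.MP_d6ddbd_nt.TwistsInEveryLocalClass

open Finset

open Pool.Agent.TH841.SH.D (Sha)

/-- the set `Z_f(ℚ)` of the rational zeros of `f = ∑ L_(i,j) x^i y^j` -/
def Zeros (L : List (List ℤ)) : Set (ℚ × ℚ) := {p : ℚ × ℚ |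
  ∑ i ∈ Finset.range L.length, ∑ j ∈ Finset.range (L.getD i []).length,
    (((L.getD i []).getD j 0 : ℤ) : ℚ) * p.1 ^ i * p.2 ^ j = 0}

/-- the polynomial `y² - x³ - A x - B` -/
def weier (A B : ℤ) : List (List ℤ) := [[-B, 0, 1], [-A], [], [-1]]

/-- the curve `y² = x³ + A x + B` over `ℚ` -/
def E (A B : ℤ) : WeierstrassCurve ℚ := ⟨0, 0, 0, (A : ℚ), (B : ℚ)⟩

/-- `y² = x³ + A x + B` is an elliptic curve with full rational 2-torsion -/
def Full (A B : ℤ) : Prop := 4 * A ^ 3 + 27 * B ^ 2 ≠ 0 ∧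
  ∃ f : ZMod 2 × ZMod 2 →+ (E A B).toAffine.Point, Function.Injective f

open Classical in
/-- The pairs `(A, B)` of integers such that `4 A³ + 27 B² ≠ 0`, there is no prime `p` with
`p⁴ ∣ A` and `p⁶ ∣ B`, the height `max (4 |A|³) (27 B²)` is at most `H`, and `Z/2 x Z/2` embeds in
the group of the rational points of `y² = x³ + A x + B`. (The bounds `|A|, |B| ≤ H` follow from the
bound of the height. Every elliptic curve over `ℚ` is isomorphic to `E A B` for exactly one pair
with the first two properties.) -/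
noncomputable def Fam (H : ℕ) : Finset (ℤ × ℤ) :=
  ((Icc (-(H : ℤ)) H) ×ˢ (Icc (-(H : ℤ)) H)).filter (fun c : ℤ × ℤ =>
    4 * c.1 ^ 3 + 27 * c.2 ^ 2 ≠ 0 ∧ 4 * |c.1| ^ 3 ≤ H ∧ 27 * c.2 ^ 2 ≤ H ∧
    (∀ p : ℕ, p.Prime → ¬ ((p : ℤ) ^ 4 ∣ c.1 ∧ (p : ℤ) ^ 6 ∣ c.2)) ∧
    ∃ f : ZMod 2 × ZMod 2 →+ (E c.1 c.2).toAffine.Point, Function.Injective f)

/-- `D` and `d` are in the same class in the multiplicative groups of `ℝ` and of `ℚ_p`, for all the
primes `p` dividing `M`, modulo squares -/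
def SameAt (M : ℕ) (D d : ℤ) : Prop :=
  0 < D * d ∧ ∀ (p : ℕ) [Fact p.Prime], p ∣ M → IsSquare ((D * d : ℤ) : ℚ_[p])

/-- `S` is an infinite set of primes, and for all the products `n` of an odd number of different
elements of `S` the integer `D₀ n` is in the local class of `d` and satisfies `P`. -/
def Odds (M : ℕ) (P : ℤ → Prop) (D₀ d : ℤ) (S : Set ℕ) : Prop :=
  S.Infinite ∧ (∀ s ∈ S, s.Prime) ∧ ∀ T : Finset ℕ, (T : Set ℕ) ⊆ S → Odd T.card →
    SameAt M (D₀ * (∏ s ∈ T, s : ℕ)) d ∧ P (D₀ * (∏ s ∈ T, s : ℕ))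

open Classical in
/-- For every nonzero `d` there is an integer `D₀` with `|D₀| ≤ 8 M²` such that at least
`κ Q / log Q` primes `q ≤ Q` are elements of such sets `S`. -/
def ManyInEveryClass (M Q : ℕ) (κ : ℝ) (P : ℤ → Prop) : Prop :=
  ∀ d : ℤ, d ≠ 0 → ∃ D₀ : ℤ, |D₀| ≤ 8 * (M : ℤ) ^ 2 ∧
    κ * Q / Real.log Q ≤ (((Icc 1 Q).filter (fun q => ∃ S : Set ℕ, q ∈ S ∧ Odds M P D₀ d S)).card : ℝ)

lemma Fam_eq (H : ℕ) : Fam H = Pool.Agent.W307.RT.Cv 2 H := by
  classical
  unfold Fam Pool.Agent.W307.RT.Cv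
  apply filter_congr
  intro c _
  have h : Pool.Agent.W307.RT.HasT 2 (Pool.Agent.W307.RT.Sh c.1 c.2) ↔
      ∃ f : ZMod 2 × ZMod 2 →+ (E c.1 c.2).toAffine.Point, Function.Injective f :=
    Pool.Agent.W307.RT.tors_iff
  rw [h]

lemma many_of {M Q : ℕ} {κ : ℝ} {P : ℤ → Prop} (h : Pool.Agent.K1H82.LQ.Wq M Q κ P) :
    ManyInEveryClass M Q κ P := h

lemma zeros_eq {e : ℤ × ℤ × ℤ} (hs : e.1 + e.2.1 + e.2.2 = 0) :
    Zeros (Pool.Agent.R395.FT.wei e) = Pool.Agent.R395.FT.Pts e.1 e.2.1 e.2.2 := by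
  obtain ⟨e1, e2, e3⟩ := e
  have hs' : (e1 : ℚ) + e2 + e3 = 0 := by
    have : e1 + e2 + e3 = 0 := hs
    exact_mod_cast this
  ext ⟨x, y⟩
  unfold Zeros Pool.Agent.R395.FT.wei Pool.Agent.R395.FT.weier Pool.Agent.R395.FT.Pts
  simp only [Set.mem_ofPred_eq, List.length_cons, List.length_nil, Finset.sum_range_succ,
    Finset.sum_range_zero, List.getD_cons_zero, List.getD_cons_succ, List.getD_nil]
  push_cast
  constructor
  · intro h
    linear_combination h + x ^ 2 * hs'
  · intro h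
    linear_combination h - x ^ 2 * hs'

/-- the roots -/
lemma exists_roots {A B : ℤ} (hD : 4 * A ^ 3 + 27 * B ^ 2 ≠ 0)
    (hT : ∃ f : ZMod 2 × ZMod 2 →+ (E A B).toAffine.Point, Function.Injective f) :
    ∃ e1 e2 e3 : ℤ, ∀ x : ℤ, x ^ 3 + A * x + B = (x - e1) * (x - e2) * (x - e3) := by
  have hT' : Pool.Agent.W307.RT.HasT 2 (Pool.Agent.W307.RT.Sh A B) :=
    Pool.Agent.W307.RT.tors_iff.2 hT
  obtain ⟨F, -, hF⟩ := Pool.Agent.W513.FK.parf
  obtain ⟨-, -, -, -, -, e1, e2, e3, hroot, -, -⟩ := hF (A, B) hD hT'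
  exact ⟨e1, e2, e3, hroot⟩

lemma wei_of {A B e1 e2 e3 : ℤ} (hD : 4 * A ^ 3 + 27 * B ^ 2 ≠ 0)
    (hroot : ∀ x : ℤ, x ^ 3 + A * x + B = (x - e1) * (x - e2) * (x - e3)) :
    Pool.Agent.R395.FT.Dis (e1, e2, e3) ∧
    weier A B = Pool.Agent.R395.FT.wei (e1, e2, e3) := by
  obtain ⟨hs, hA, hB⟩ := Pool.Agent.W402.FK.coef A B e1 e2 e3 hroot
  obtain ⟨h12, h13, h23⟩ := Pool.Agent.W402.FK.dist A B e1 e2 e3 hD hroot
  refine ⟨⟨⟨h12, h13, h23⟩, hs⟩, ?_⟩
  unfold weier Pool.Agent.R395.FT.wei Pool.Agent.R395.FT.weier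
  rw [hA, hB]

/-- `E(ℚ)` is finite and `Ш(E)[2] = 0` -/
def Trivial (A B : ℤ) : Prop :=
  Finite (E A B).toAffine.Point ∧ ∀ x : Sha (E A B), x + x = 0 → x = 0

open Classical in
/-- **Theorem.** There is a partial computable function `φ` from the lists of lists of integers
(polynomials `f(x, y)`) to `{true, false}` such that
(1) if `φ(f)` is defined, then it is `true` if and only if `f` has infinitely many rational zeros;
(2) for every curve `E : y² = x³ + A x + B` with full rational 2-torsion, `φ(y² - x³ - A x - B)` is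
`false` if and only if `E(ℚ)` is finite and `Ш(E)[2] = 0`;
(3) there is a constant `C` such that for all `M ≥ 1` and `ε > 0` there is `κ > 0` such that for all
large `H` and all `Q ≥ (log H) ^ C`, all but at most `ε * #Fam H` of the elliptic curves `E` over `ℚ`
with full rational 2-torsion and height at most `H` have this property: for every nonzero integer `d`
there is an integer `D₀`, `|D₀| ≤ 8 M²`, such that at least `κ Q / log Q` primes `q ≤ Q` are elements of
infinite sets `S` of primes such that for all the products `n` of an odd number of different elements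
of `S` (for example `n = q`), `D₀ n` and `d` are in the same square class at the real place and at all
the primes dividing `M`, and `φ` has the value `false` at the equation `y² - x³ - A D² x - B D³` of the
quadratic twist of `E` by `D = D₀ n`. -/
theorem result :
    ∃ φ : List (List ℤ) →. Bool, Partrec φ ∧
    (∀ L, ∀ r ∈ φ L, (r = true ↔ (Zeros L).Infinite)) ∧
    (∀ A B : ℤ, Full A B → (false ∈ φ (weier A B) ↔ Trivial A B)) ∧
    ∃ C : ℕ, ∀ M : ℕ, 0 < M → ∀ ε : ℝ, 0 < ε → ∃ κ : ℝ, 0 < κ ∧ ∃ H₀ : ℕ, ∀ H : ℕ, H₀ ≤ H →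
      ∀ Q : ℕ, (Real.log H) ^ C ≤ Q →
      (((Fam H).filter (fun c => ¬ ManyInEveryClass M Q κ
        (fun D => false ∈ φ (weier (D ^ 2 * c.1) (D ^ 3 * c.2))))).card : ℝ) ≤
        ε * ((Fam H).card : ℝ) := by
  obtain ⟨φ, hφ, hdom, hval⟩ := Pool.Agent.R395.FT.exists_alg
  -- soundness
  have hinf : ∀ L, Pool.Agent.R395.FT.PInf L → (Zeros L).Infinite := by
    intro L h
    obtain ⟨e, h1, rfl, h2⟩ := Pool.Agent.R395.FT.pInf_sound h
    rw [zeros_eq h1.2]
    exact h2
  have hfin : ∀ L, Pool.Agent.R395.FT.PFin L → ¬ (Zeros L).Infinite := by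
    intro L h
    obtain ⟨e, h1, rfl, h2, -⟩ := Pool.Agent.R395.FT.pFin_sound h
    rw [zeros_eq h1.2, Set.not_infinite]
    exact h2
  have hsound : ∀ L, ∀ r ∈ φ L, (r = true ↔ (Zeros L).Infinite) := by
    intro L r hr
    rcases hval L r hr with ⟨rfl, h⟩ | ⟨rfl, h⟩
    · exact ⟨fun _ => hinf L h, fun _ => rfl⟩
    · exact ⟨fun h' => Bool.noConfusion h', fun h' => absurd h' (hfin L h)⟩
  have hfalse : ∀ L, Pool.Agent.R395.FT.PFin L → false ∈ φ L := by
    intro L h
    obtain ⟨r, hr⟩ := Part.dom_iff_mem.1 ((hdom L).2 (Or.inr h))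
    rcases hval _ _ hr with ⟨-, h1⟩ | ⟨h1, -⟩
    · exact absurd (hinf _ h1) (hfin _ h)
    · rw [h1] at hr
      exact hr
  -- the criterion
  have hcrit : ∀ {A B e1 e2 e3 : ℤ}, 4 * A ^ 3 + 27 * B ^ 2 ≠ 0 →
      (∀ x : ℤ, x ^ 3 + A * x + B = (x - e1) * (x - e2) * (x - e3)) →
      (false ∈ φ (weier A B) ↔ Trivial A B) := by
    intro A B e1 e2 e3 hD hroot
    obtain ⟨g1, g2⟩ := wei_of hD hroot
    refine Iff.trans ⟨fun h => ?_, fun h => ?_⟩ (Pool.Agent.K1H84.DI.small_iff hD hroot)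
    · rcases hval _ _ h with ⟨h1, -⟩ | ⟨-, h1⟩
      · exact Bool.noConfusion h1
      · obtain ⟨e, h2, h3, -, m, l, h4⟩ := Pool.Agent.R395.FT.pFin_sound h1
        exact Pool.Agent.R395.FT.few_sel hD (Pool.Agent.R395.FT.root_of h2 h3) h4
    · rw [g2]
      exact hfalse _ (Pool.Agent.R395.FT.pFin_complete g1 hroot h.1 h.2)
  refine ⟨φ, hφ, hsound, fun A B hF => ?_, Pool.Agent.K1H97.WA.CC, fun M hM ε hε => ?_⟩
  · obtain ⟨e1, e2, e3, hroot⟩ := exists_roots hF.1 hF.2
    exact hcrit hF.1 hroot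
  · obtain ⟨κ, hκ, H₀, h⟩ := Pool.Agent.K1H82.LQ.main_all
      (Pool.Agent.Y46.KEY.key_of Pool.Agent.Y660.TS.rnk Pool.Agent.Y676.Tsm.tsm)
      Pool.Agent.Y660.TS.mom M hM ε hε
    refine ⟨κ, hκ, H₀, fun H hH Q hQ => ?_⟩
    rw [Fam_eq]
    refine le_trans ?_ (h H hH Q hQ)
    refine Nat.cast_le.2 (card_le_card fun c hc => ?_)
    rw [mem_filter] at hc ⊢
    have hcF : c ∈ Fam H := by
      rw [Fam_eq]
      exact hc.1
    unfold Fam at hcF
    obtain ⟨-, hD0, -, -, -, hT⟩ := mem_filter.1 hcF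
    obtain ⟨e1, e2, e3, hroot⟩ := exists_roots hD0 hT
    refine ⟨hc.1, fun h' => hc.2 (many_of (h'.mono fun D hD0' hD => ?_))⟩
    exact (hcrit (Pool.Agent.Y723.QT.disc_q hD0' hD0)
      (Pool.Agent.Y676.roots_tw hroot D)).2 hD

end Pool.Agent.Results.MP_d6ddbd_nt.TwistsInEveryLocalClass
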